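import Mathlib
import Pool.Agent.Helper76_LAG.Stmt

/-!
# LAG, modules SEGA and SEGB: trails and colours
-/

set_option autoImplicit false

namespace Pool.Agent.LAG.Sega

open SimpleGraph Pool.Agent.LAG

variable {V : Type} {L T : ℕ} {E : Env V} {ω : V → St L}

lemma alv_symm {u v : V} (h : Alv E ω u v) : Alv E ω v u := ⟨h.1.symm, h.2.2, h.2.1⟩

lemma ptn_symm {v u w : V} (h : Ptn E ω v u w) : Ptn E ω v w u := by
  unfold Ptn at *
  rw [← h, kx_kx]

lemma nxt_unique {e : V × V} {w w' : V} (h : Nxt E ω e w) (h' : Nxt E ω e w') : w = w' :=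
  E.slot_inj e.2 w w' h.1.1 h'.1.1 (h.2.symm.trans h'.2)

lemma nx_of_nxt {e : V × V} {w : V} (h : Nxt E ω e w) : nx E ω e = (e.2, w) := by
  have hex : ∃ w, Nxt E ω e w := ⟨w, h⟩
  unfold nx
  rw [dif_pos hex, nxt_unique hex.choose_spec h]

lemma nx_of_stp {e : V × V} (h : stp E ω e) : nx E ω e = e := by
  unfold nx
  rw [dif_neg h]

lemma exists_nxt {e : V × V} (h : ¬ stp E ω e) : ∃ w, Nxt E ω e w ∧ nx E ω e = (e.2, w) := by
  unfold stp at h
  push Not at h
  obtain ⟨w, hw⟩ := h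
  exact ⟨w, hw, nx_of_nxt hw⟩

lemma alv_nx {e : V × V} (h : Alv E ω e.1 e.2) : Alv E ω (nx E ω e).1 (nx E ω e).2 := by
  by_cases hs : stp E ω e
  · rw [nx_of_stp hs]; exact h
  · obtain ⟨w, hw, he⟩ := exists_nxt hs
    rw [he]; exact hw.1

lemma alv_iter {e : V × V} (h : Alv E ω e.1 e.2) (i : ℕ) :
    Alv E ω ((nx E ω)^[i] e).1 ((nx E ω)^[i] e).2 := by
  induction i with
  | zero => exact h
  | succ i ih =>
    rw [Function.iterate_succ_apply']
    exact alv_nx ih

lemma iter_stp {e : V × V} {k : ℕ} (h : stp E ω ((nx E ω)^[k] e)) (j : ℕ) :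
    (nx E ω)^[k + j] e = (nx E ω)^[k] e := by
  induction j with
  | zero => rfl
  | succ j ih =>
    rw [← Nat.add_assoc, Function.iterate_succ_apply', ih, nx_of_stp h]

lemma iter_stp_ge {e : V × V} {k m : ℕ} (h : stp E ω ((nx E ω)^[k] e)) (hm : k ≤ m) :
    (nx E ω)^[m] e = (nx E ω)^[k] e := by
  obtain ⟨j, rfl⟩ := Nat.exists_eq_add_of_le hm
  exact iter_stp h j

/-- The sequence of the vertices of the trail from `e`. -/
noncomputable def sq (E : Env V) (ω : V → St L) (e : V × V) : ℕ → V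
  | 0 => e.1
  | (j + 1) => ((nx E ω)^[j] e).2

lemma sq_dart {e : V × V} {k : ℕ} (h : ∀ i, i < k → ¬ stp E ω ((nx E ω)^[i] e)) :
    ∀ i, i ≤ k → (nx E ω)^[i] e = (sq E ω e i, sq E ω e (i + 1)) := by
  intro i hi
  cases i with
  | zero => rfl
  | succ j =>
    obtain ⟨w, hw, he⟩ := exists_nxt (h j (by omega))
    have h1 : (nx E ω)^[j + 1] e = (((nx E ω)^[j] e).2, w) := by
      rw [Function.iterate_succ_apply', he]
    have h2 : sq E ω e (j + 1) = ((nx E ω)^[j] e).2 := rfl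
    have h3 : sq E ω e (j + 1 + 1) = ((nx E ω)^[j + 1] e).2 := rfl
    rw [h2, h3, h1]

lemma sq_trail {e : V × V} (he : Alv E ω e.1 e.2) {k : ℕ}
    (h : ∀ i, i < k → ¬ stp E ω ((nx E ω)^[i] e)) : IsT E ω (sq E ω e) (k + 1) := by
  constructor
  · intro t ht
    have h1 := alv_iter he t
    rw [sq_dart h t (by omega)] at h1
    exact h1
  · intro t ht0 ht
    obtain ⟨j, rfl⟩ : ∃ j, t = j + 1 := ⟨t - 1, by omega⟩
    obtain ⟨w, hw, hn⟩ := exists_nxt (h j (by omega))
    have h1 : (nx E ω)^[j + 1] e = (((nx E ω)^[j] e).2, w) := by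
      rw [Function.iterate_succ_apply', hn]
    have h2 := sq_dart h (j + 1) (by omega)
    have h3 := sq_dart h j (by omega)
    rw [h1] at h2
    have h4 : w = sq E ω e (j + 1 + 1) := by
      have := congrArg Prod.snd h2
      exact this
    have h5 := hw.2
    rw [h3] at h5
    rw [← h4]
    exact h5

/-- The trail from an alive dart stops. -/
lemma exists_stop (hT : Tame E ω T) {e : V × V} (he : Alv E ω e.1 e.2) :
    ∃ k, k + 1 < T ∧ stp E ω ((nx E ω)^[k] e) ∧
      (∀ i, i < k → ¬ stp E ω ((nx E ω)^[i] e)) ∧ IsT E ω (sq E ω e) (k + 1) ∧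
      ∀ s t, s ≤ k + 1 → t ≤ k + 1 → sq E ω e s = sq E ω e t → s = t := by
  classical
  have hex : ∃ k, stp E ω ((nx E ω)^[k] e) := by
    by_contra hcon
    push Not at hcon
    have h1 := hT _ _ (sq_trail he (k := T) (fun i _ => hcon i))
    omega
  have hmin : ∀ i, i < Nat.find hex → ¬ stp E ω ((nx E ω)^[i] e) := fun i hi =>
    Nat.find_min hex hi
  have htr := sq_trail he hmin
  have h2 := hT _ _ htr
  exact ⟨Nat.find hex, h2.1, Nat.find_spec hex, hmin, htr, h2.2⟩

lemma tidy_of_alv (hT : Tame E ω T) {e : V × V} (he : Alv E ω e.1 e.2) : Tidy E ω T e := by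
  obtain ⟨k, hk, hst, _, _, hinj⟩ := exists_stop hT he
  refine ⟨he, k, by omega, hst, ?_⟩
  intro i j hi hj hij
  have := hinj (i + 1) (j + 1) (by omega) (by omega) hij
  omega

lemma key_nx (hT : Tame E ω T) {e : V × V} (he : Alv E ω e.1 e.2) :
    key E ω T (nx E ω e) = key E ω T e := by
  obtain ⟨k, hk, hst, _⟩ := exists_stop hT he
  unfold key
  rw [← Function.iterate_succ_apply, iter_stp_ge hst (show k ≤ T.succ by omega),
    iter_stp_ge hst (show k ≤ T by omega)]

lemma key_eq {e : V × V} {k : ℕ} (hk : k ≤ T)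
    (hst : stp E ω ((nx E ω)^[k] e)) : key E ω T e = (nx E ω)^[k] e :=
  iter_stp_ge hst hk

/-- Going back. -/
lemma nx_swap {e : V × V} (he : Alv E ω e.1 e.2) (hs : ¬ stp E ω e) :
    nx E ω (nx E ω e).swap = e.swap := by
  obtain ⟨w, hw, hn⟩ := exists_nxt hs
  rw [hn]
  have h1 : Nxt E ω (w, e.2) e.1 := ⟨alv_symm he, ptn_symm hw.2⟩
  exact nx_of_nxt h1

lemma reverse {e : V × V} (he : Alv E ω e.1 e.2) {k : ℕ}
    (h : ∀ i, i < k → ¬ stp E ω ((nx E ω)^[i] e)) :
    ∀ j, j ≤ k → (nx E ω)^[j] (((nx E ω)^[k] e).swap) = ((nx E ω)^[k - j] e).swap := by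
  intro j
  induction j with
  | zero => intro _; rfl
  | succ j ih =>
    intro hj
    rw [Function.iterate_succ_apply', ih (by omega)]
    obtain ⟨m, hm⟩ : ∃ m, k - j = m + 1 := ⟨k - j - 1, by omega⟩
    have hm' : k - (j + 1) = m := by omega
    rw [hm, hm', Function.iterate_succ_apply']
    exact nx_swap (alv_iter he m) (h m (by omega))

/-- The two ends of a trail are different. -/
lemma key_ne (hT : Tame E ω T) {e : V × V} (he : Alv E ω e.1 e.2) :
    key E ω T e ≠ key E ω T e.swap := by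
  intro hkey
  have hes : Alv E ω e.swap.1 e.swap.2 := alv_symm he
  obtain ⟨k, hk, hst, hmin, htr, hinj⟩ := exists_stop hT hes
  -- start of the maximal trail
  set f := ((nx E ω)^[k] e.swap).swap with hf
  have hfa : Alv E ω f.1 f.2 := alv_symm (alv_iter hes k)
  have hfk : (nx E ω)^[k] f = e := by
    have := reverse hes hmin k le_rfl
    rw [Nat.sub_self] at this
    rw [hf, this]
    simp
  obtain ⟨K, hK, hstK, hminK, htrK, hinjK⟩ := exists_stop hT hfa
  have h1 : key E ω T e = (nx E ω)^[K] f := by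
    unfold key
    rw [← hfk, ← Function.iterate_add_apply]
    exact iter_stp_ge hstK (by omega)
  have h2 : key E ω T e.swap = f.swap := by
    rw [key_eq (by omega) hst, hf, Prod.swap_swap]
  have h3 : sq E ω f (K + 1) = sq E ω f 0 := by
    have h4 : sq E ω f (K + 1) = ((nx E ω)^[K] f).2 := rfl
    have h5 : sq E ω f 0 = f.1 := rfl
    rw [h4, h5, ← h1, hkey, h2]
    rfl
  have h6 := hinjK _ _ (by omega) (by omega) h3
  omega

lemma skey_swap {e : V × V} : skey E ω T e = skey E ω T e.swap := by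
  unfold skey
  rw [Prod.swap_swap]
  split_ifs with h1 h2 h2
  · omega
  · rfl
  · rfl
  · exact E.ord_inj (by omega)

lemma colD_succ {n : ℕ} : ∀ {e : V × V} {k : ℕ}, k ≤ n → stp E ω ((nx E ω)^[k] e) →
    colD E ω n e = colD E ω (n + 1) e := by
  induction n with
  | zero =>
    intro e k hk hst
    have hk0 : k = 0 := by omega
    subst hk0
    have hst' : stp E ω e := hst
    simp only [colD]
    rw [if_pos hst']
  | succ n ih =>
    intro e k hk hst
    by_cases hs : stp E ω e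
    · rw [colD, colD, if_pos hs, if_pos hs]
    · obtain ⟨j, rfl⟩ : ∃ j, k = j + 1 := by
        cases k with
        | zero => exact absurd hst hs
        | succ j => exact ⟨j, rfl⟩
      rw [Function.iterate_succ_apply] at hst
      have h1 := ih (e := nx E ω e) (k := j) (by omega) hst
      have h2 : colD E ω (n + 1) e = !(colD E ω n (nx E ω e)) := by
        rw [colD, if_neg hs]
      have h3 : colD E ω (n + 1 + 1) e = !(colD E ω (n + 1) (nx E ω e)) := by
        rw [colD, if_neg hs]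
      rw [h2, h3, h1]

lemma colD_nx (hT : Tame E ω T) {e : V × V} (he : Alv E ω e.1 e.2) (hs : ¬ stp E ω e) :
    colD E ω T e = !(colD E ω T (nx E ω e)) := by
  obtain ⟨k, hk, hst, _⟩ := exists_stop hT (alv_nx he)
  obtain ⟨T', rfl⟩ : ∃ T', T = T' + 1 := ⟨T - 1, by omega⟩
  rw [colD, if_neg hs, colD_succ (n := T') (e := nx E ω e) (k := k) (by omega) hst]

lemma nxt_of {u v w : V} (h2 : Alv E ω v w) (h3 : Ptn E ω v u w) : Nxt E ω (u, v) w := ⟨h2, h3⟩

lemma col_swap (hT : Tame E ω T) {e : V × V} (he : Alv E ω e.1 e.2) :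
    col E ω T e = col E ω T e.swap := by
  have hne := key_ne hT he
  have hne' : E.ord (key E ω T e) ≠ E.ord (key E ω T e.swap) := fun h => hne (E.ord_inj h)
  unfold col
  rw [Prod.swap_swap]
  split_ifs with h1 h2 h2
  · omega
  · rfl
  · rfl
  · omega

lemma keys_of_ptn (hT : Tame E ω T) {u v w : V} (h1 : Alv E ω u v) (h2 : Alv E ω v w)
    (h3 : Ptn E ω v u w) :
    nx E ω (u, v) = (v, w) ∧ nx E ω (w, v) = (v, u) ∧
      key E ω T (u, v) = key E ω T (v, w) ∧ key E ω T (w, v) = key E ω T (v, u) := by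
  have ha : nx E ω (u, v) = (v, w) := nx_of_nxt (nxt_of h2 h3)
  have hb : nx E ω (w, v) = (v, u) := nx_of_nxt (nxt_of (alv_symm h1) (ptn_symm h3))
  refine ⟨ha, hb, ?_, ?_⟩
  · rw [← ha]; exact (key_nx hT (e := (u, v)) h1).symm
  · rw [← hb]; exact (key_nx hT (e := (w, v)) (alv_symm h2)).symm

lemma skey_of_ptn (hT : Tame E ω T) {u v w : V} (h1 : Alv E ω u v) (h2 : Alv E ω v w)
    (h3 : Ptn E ω v u w) : skey E ω T (u, v) = skey E ω T (v, w) := by
  obtain ⟨_, _, hk1, hk2⟩ := keys_of_ptn hT h1 h2 h3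
  unfold skey
  simp only [Prod.swap_prod_mk]
  rw [hk1, hk2]

lemma col_of_ptn (hT : Tame E ω T) {u v w : V} (h1 : Alv E ω u v) (h2 : Alv E ω v w)
    (h3 : Ptn E ω v u w) : col E ω T (u, v) ≠ col E ω T (v, w) := by
  obtain ⟨ha, hb, hk1, hk2⟩ := keys_of_ptn hT h1 h2 h3
  have hs1 : ¬ stp E ω (u, v) := fun h => h ⟨w, nxt_of h2 h3⟩
  have hs2 : ¬ stp E ω (w, v) := fun h => h ⟨u, nxt_of (alv_symm h1) (ptn_symm h3)⟩
  have hc1 := colD_nx hT (e := (u, v)) h1 hs1
  have hc2 := colD_nx hT (e := (w, v)) (alv_symm h2) hs2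
  rw [ha] at hc1
  rw [hb] at hc2
  unfold col
  simp only [Prod.swap_prod_mk]
  rw [hk1, hk2]
  split_ifs
  · rw [hc1]; simp
  · rw [hc2]; simp

lemma skey_trail (hT : Tame E ω T) {z : ℕ → V} {n : ℕ} (hz : IsT E ω z n) :
    ∀ t, t < n → skey E ω T (z 0, z 1) = skey E ω T (z t, z (t + 1)) := by
  intro t
  induction t with
  | zero => intro _; rfl
  | succ t ih =>
    intro ht
    rw [ih (by omega)]
    exact skey_of_ptn hT (hz.1 t (by omega)) (hz.1 (t + 1) ht)
      (by have := hz.2 (t + 1) (by omega) ht; simpa using this)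

end Pool.Agent.LAG.Sega

namespace Pool.Agent.LAG

open Sega

theorem sega : SegaStmt := by
  intro V L T E ω hT
  refine ⟨?_, ?_, ?_, ?_, ?_, ?_⟩
  · intro u v h
    exact tidy_of_alv hT (e := (u, v)) h
  · intro u v w h1 h2 h3
    exact ⟨(keys_of_ptn hT h1 h2 h3).1, skey_of_ptn hT h1 h2 h3⟩
  · intro u v _
    exact skey_swap
  · intro u v h
    exact col_swap hT (e := (u, v)) h
  · intro u v w h1 h2 h3
    exact col_of_ptn hT h1 h2 h3
  · intro z n hz s t hs ht
    rw [← skey_trail hT hz s hs, ← skey_trail hT hz t ht]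

end Pool.Agent.LAG
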