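import Mathlib
import Pool.Agent.Helper92_LAG.Sega

/-!
# LAG, module SEGB: maximal trails
-/

set_option autoImplicit false

namespace Pool.Agent.LAG.Sega

open SimpleGraph Pool.Agent.LAG

variable {V : Type} {L T : ℕ} {E : Env V} {ω : V → St L}

/-- Two darts with the same last dart are on one trail. -/
lemma iter_of_key_aux {e e' : V × V} (he : Alv E ω e.1 e.2) (he' : Alv E ω e'.1 e'.2)
    {k k' : ℕ} (hmin : ∀ i, i < k → ¬ stp E ω ((nx E ω)^[i] e))
    (hmin' : ∀ i, i < k' → ¬ stp E ω ((nx E ω)^[i] e'))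
    (hf : (nx E ω)^[k] e = (nx E ω)^[k'] e') (hkk : k' ≤ k) :
    (nx E ω)^[k - k'] e = e' := by
  have h1 := reverse he hmin k' hkk
  have h2 := reverse he' hmin' k' le_rfl
  rw [Nat.sub_self, ← hf, h1] at h2
  have h3 := congrArg Prod.swap h2
  rw [Prod.swap_swap, Prod.swap_swap] at h3
  exact h3

lemma iter_of_key (hT : Tame E ω T) {e e' : V × V} (he : Alv E ω e.1 e.2)
    (he' : Alv E ω e'.1 e'.2) (hkey : key E ω T e = key E ω T e') :
    (∃ i, (∀ j, j < i → ¬ stp E ω ((nx E ω)^[j] e)) ∧ (nx E ω)^[i] e = e') ∨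
      (∃ i, (∀ j, j < i → ¬ stp E ω ((nx E ω)^[j] e')) ∧ (nx E ω)^[i] e' = e) := by
  obtain ⟨k, hk, hst, hmin, -, -⟩ := exists_stop hT he
  obtain ⟨k', hk', hst', hmin', -, -⟩ := exists_stop hT he'
  rw [key_eq (by omega) hst, key_eq (by omega) hst'] at hkey
  rcases le_total k' k with h | h
  · left
    exact ⟨k - k', fun j hj => hmin j (by omega), iter_of_key_aux he he' hmin hmin' hkey h⟩
  · right
    exact ⟨k' - k, fun j hj => hmin' j (by omega), iter_of_key_aux he' he hmin' hmin hkey.symm h⟩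

/-- An iterate, in terms of the sequence of vertices. -/
lemma iter_pos (hT : Tame E ω T) {e e' : V × V} (he : Alv E ω e.1 e.2) {i : ℕ}
    (hi : ∀ j, j < i → ¬ stp E ω ((nx E ω)^[j] e)) (h : (nx E ω)^[i] e = e') :
    sq E ω e i = e'.1 ∧ sq E ω e (i + 1) = e'.2 ∧
      ∀ s t, s ≤ i + 1 → t ≤ i + 1 → sq E ω e s = sq E ω e t → s = t := by
  have h1 := sq_dart hi i le_rfl
  rw [h] at h1
  have h2 := hT _ _ (sq_trail he hi)
  exact ⟨by rw [h1], by rw [h1], h2.2⟩

lemma ptn_of_skey (hT : Tame E ω T) {u v w : V} (h1 : Alv E ω u v) (h2 : Alv E ω v w)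
    (hne : u ≠ w) (h : skey E ω T (u, v) = skey E ω T (v, w)) : Ptn E ω v u w := by
  have huv : u ≠ v := h1.1.ne
  have hvw : v ≠ w := h2.1.ne
  -- forward, forward
  have key1 : key E ω T (u, v) = key E ω T (v, w) → Ptn E ω v u w := by
    intro hk
    rcases iter_of_key hT (e := (u, v)) (e' := (v, w)) h1 h2 hk with ⟨i, hi, hn⟩ | ⟨i, hi, hn⟩
    · obtain ⟨ha, hb, hinj⟩ := iter_pos hT (e := (u, v)) h1 hi hn
      have h3 : sq E ω (u, v) 1 = v := rfl
      cases i with
      | zero =>
        have : sq E ω (u, v) 0 = u := rfl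
        rw [this] at ha
        exact absurd ha huv
      | succ i =>
        have h4 := hinj (i + 1) 1 (by omega) (by omega) (by rw [ha, h3])
        have hi0 : i = 0 := by omega
        subst hi0
        obtain ⟨w', hw', hn'⟩ := exists_nxt (hi 0 (by omega))
        have h5 : (nx E ω)^[0 + 1] (u, v) = nx E ω ((nx E ω)^[0] (u, v)) := rfl
        rw [h5, hn'] at hn
        have h6 : w' = w := congrArg Prod.snd hn
        rw [← h6]
        exact hw'.2
    · obtain ⟨ha, hb, hinj⟩ := iter_pos hT (e := (v, w)) h2 hi hn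
      have h3 : sq E ω (v, w) 0 = v := rfl
      have h4 := hinj (i + 1) 0 (by omega) (by omega) (by rw [hb, h3])
      omega
  have key2 : ∀ {a b : V}, Alv E ω a v → Alv E ω b v → a ≠ b →
      key E ω T (a, v) ≠ key E ω T (b, v) := by
    intro a b ha hb hab hk
    rcases iter_of_key hT (e := (a, v)) (e' := (b, v)) ha hb hk with ⟨i, hi, hn⟩ | ⟨i, hi, hn⟩
    · obtain ⟨hc, hd, hinj⟩ := iter_pos hT (e := (a, v)) ha hi hn
      have h3 : sq E ω (a, v) 1 = v := rfl
      have h4 := hinj (i + 1) 1 (by omega) (by omega) (by rw [hd, h3])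
      have hi0 : i = 0 := by omega
      subst hi0
      exact hab hc
    · obtain ⟨hc, hd, hinj⟩ := iter_pos hT (e := (b, v)) hb hi hn
      have h3 : sq E ω (b, v) 1 = v := rfl
      have h4 := hinj (i + 1) 1 (by omega) (by omega) (by rw [hd, h3])
      have hi0 : i = 0 := by omega
      subst hi0
      exact hab hc.symm
  have key3 : ∀ {a b : V}, Alv E ω v a → Alv E ω v b → a ≠ b →
      key E ω T (v, a) ≠ key E ω T (v, b) := by
    intro a b ha hb hab hk
    rcases iter_of_key hT (e := (v, a)) (e' := (v, b)) ha hb hk with ⟨i, hi, hn⟩ | ⟨i, hi, hn⟩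
    · obtain ⟨hc, hd, hinj⟩ := iter_pos hT (e := (v, a)) ha hi hn
      have h3 : sq E ω (v, a) 0 = v := rfl
      have h4 := hinj i 0 (by omega) (by omega) (by rw [hc, h3])
      subst h4
      exact hab hd
    · obtain ⟨hc, hd, hinj⟩ := iter_pos hT (e := (v, b)) hb hi hn
      have h3 : sq E ω (v, b) 0 = v := rfl
      have h4 := hinj i 0 (by omega) (by omega) (by rw [hc, h3])
      subst h4
      exact hab hd.symm
  have key4 : key E ω T (v, u) = key E ω T (w, v) → Ptn E ω v u w := by
    intro hk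
    rcases iter_of_key hT (e := (w, v)) (e' := (v, u)) (alv_symm h2) (alv_symm h1) hk.symm with
      ⟨i, hi, hn⟩ | ⟨i, hi, hn⟩
    · obtain ⟨ha, hb, hinj⟩ := iter_pos hT (e := (w, v)) (alv_symm h2) hi hn
      have h3 : sq E ω (w, v) 1 = v := rfl
      cases i with
      | zero =>
        have : sq E ω (w, v) 0 = w := rfl
        rw [this] at ha
        exact absurd ha hvw.symm
      | succ i =>
        have h4 := hinj (i + 1) 1 (by omega) (by omega) (by rw [ha, h3])
        have hi0 : i = 0 := by omega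
        subst hi0
        obtain ⟨w', hw', hn'⟩ := exists_nxt (hi 0 (by omega))
        have h5 : (nx E ω)^[0 + 1] (w, v) = nx E ω ((nx E ω)^[0] (w, v)) := rfl
        rw [h5, hn'] at hn
        have h6 : w' = u := congrArg Prod.snd hn
        rw [← h6]
        exact ptn_symm hw'.2
    · obtain ⟨ha, hb, hinj⟩ := iter_pos hT (e := (v, u)) (alv_symm h1) hi hn
      have h3 : sq E ω (v, u) 0 = v := rfl
      have h4 := hinj (i + 1) 0 (by omega) (by omega) (by rw [hb, h3])
      omega
  unfold skey at h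
  simp only [Prod.swap_prod_mk] at h
  split_ifs at h
  · exact key1 h
  · exact absurd h (key2 h1 (alv_symm h2) hne)
  · exact absurd h (key3 (alv_symm h1) h2 hne)
  · exact key4 h

/-! ### Trails -/

lemma isT_shift {z : ℕ → V} {n a m : ℕ} (hz : IsT E ω z n) (h : a + m ≤ n) :
    IsT E ω (fun i => z (a + i)) m := by
  constructor
  · intro t ht
    exact hz.1 (a + t) (by omega)
  · intro t ht0 ht
    have h1 := hz.2 (a + t) (by omega) (by omega)
    have h2 : a + t - 1 = a + (t - 1) := by omega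
    rw [h2] at h1
    exact h1

lemma isT_rev {z : ℕ → V} {n a m : ℕ} (hz : IsT E ω z n) (ha : a ≤ n) (hm : m ≤ a) :
    IsT E ω (fun i => z (a - i)) m := by
  constructor
  · intro t ht
    have h1 := hz.1 (a - (t + 1)) (by omega)
    have h2 : a - (t + 1) + 1 = a - t := by omega
    rw [h2] at h1
    exact alv_symm h1
  · intro t ht0 ht
    have h1 := hz.2 (a - t) (by omega) (by omega)
    have h2 : a - t - 1 = a - (t + 1) := by omega
    have h3 : a - t + 1 = a - (t - 1) := by omega
    rw [h2, h3] at h1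
    exact ptn_symm h1

lemma onSeg_trail (hT : Tame E ω T) {e : V × V} {y : V} (h : OnSeg E ω e y) {u : V}
    (hu : u = e.1 ∨ u = e.2) (hyu : y ≠ u) :
    ∃ z n, 1 ≤ n ∧ IsT E ω z n ∧ z 0 = u ∧ z n = y ∧
      skey E ω T (z 0, z 1) = skey E ω T e := by
  obtain ⟨z, n, t, s, hz, ht, hs, hzs, he⟩ := h
  -- the key of `e`
  have hke : skey E ω T (z t, z (t + 1)) = skey E ω T e := by
    rcases he with he | he
    · rw [he]
    · rw [← he]; exact skey_swap
  have hkt := skey_trail hT hz t ht
  -- the position of `u`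
  obtain ⟨a, haa, hza⟩ : ∃ a, (a = t ∨ a = t + 1) ∧ z a = u := by
    rcases he with he | he
    · rcases hu with hu | hu
      · exact ⟨t, Or.inl rfl, by rw [hu, ← he]⟩
      · exact ⟨t + 1, Or.inr rfl, by rw [hu, ← he]⟩
    · rcases hu with hu | hu
      · exact ⟨t + 1, Or.inr rfl, by rw [hu, ← he]⟩
      · exact ⟨t, Or.inl rfl, by rw [hu, ← he]⟩
  have hsa : s ≠ a := by
    rintro rfl
    exact hyu (hzs.symm.trans hza)
  have han : a ≤ n := by rcases haa with h | h <;> omega
  rcases lt_or_gt_of_ne hsa with h | h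
  · refine ⟨fun i => z (a - i), a - s, by omega, isT_rev hz han (by omega), hza, ?_, ?_⟩
    · change z (a - (a - s)) = y
      rw [show a - (a - s) = s by omega]; exact hzs
    · change skey E ω T (z (a - 0), z (a - 1)) = _
      rw [← hke, ← hkt, skey_trail hT hz (a - 1) (by omega)]
      rw [show a - 1 + 1 = a by omega]
      exact skey_swap
  · refine ⟨fun i => z (a + i), s - a, by omega, isT_shift hz (by omega), hza, ?_, ?_⟩
    · change z (a + (s - a)) = y
      rw [show a + (s - a) = s by omega]; exact hzs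
    · change skey E ω T (z (a + 0), z (a + 1)) = _
      rw [← hke, ← hkt, skey_trail hT hz a (by omega)]
      rfl

/-- The vertices of the maximal trail with the last dart `g`. -/
def Rch (E : Env V) (ω : V → St L) (g : V × V) (y : V) : Prop :=
  y = g.2 ∨ ∃ i, y = ((nx E ω)^[i] g.swap).2

lemma onSeg_swap {e : V × V} {y : V} (h : OnSeg E ω e y) : OnSeg E ω e.swap y := by
  obtain ⟨z, n, t, s, hz, ht, hs, hzs, he⟩ := h
  refine ⟨z, n, t, s, hz, ht, hs, hzs, ?_⟩
  rcases he with he | he
  · right; rw [← he]; rfl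
  · left; rw [← he]; rfl

/-- A trail is a sequence of iterates of `nx`. -/
lemma trail_iter {z : ℕ → V} {n : ℕ} (hz : IsT E ω z n) :
    ∀ t, t < n → (nx E ω)^[t] (z 0, z 1) = (z t, z (t + 1)) := by
  intro t
  induction t with
  | zero => intro _; rfl
  | succ t ih =>
    intro ht
    rw [Function.iterate_succ_apply', ih (by omega)]
    have h1 := hz.2 (t + 1) (by omega) ht
    exact nx_of_nxt (nxt_of (hz.1 (t + 1) ht) h1)

lemma trail_not_stp {z : ℕ → V} {n : ℕ} (hz : IsT E ω z n) :
    ∀ t, t + 1 < n → ¬ stp E ω ((nx E ω)^[t] (z 0, z 1)) := by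
  intro t ht hs
  rw [trail_iter hz t (by omega)] at hs
  exact hs ⟨z (t + 1 + 1), nxt_of (hz.1 (t + 1) ht) (hz.2 (t + 1) (by omega) ht)⟩

lemma rch_of_onSeg_aux (hT : Tame E ω T) {e : V × V} {y : V} {z : ℕ → V} {n t s : ℕ}
    (hz : IsT E ω z n) (ht : t < n) (hs : s ≤ n) (hzs : z s = y) (he : (z t, z (t + 1)) = e) :
    Rch E ω (key E ω T e) y := by
  have hal : Alv E ω (z 0) (z 1) := hz.1 0 (by omega)
  obtain ⟨k, hk, hst, hmin, -, -⟩ := exists_stop hT (e := (z 0, z 1)) hal
  have hkn : n ≤ k + 1 := by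
    by_contra hcon
    exact trail_not_stp hz k (by omega) hst
  have hkey : key E ω T e = (nx E ω)^[k] (z 0, z 1) := by
    unfold key
    rw [← he, ← trail_iter hz t ht, ← Function.iterate_add_apply]
    exact iter_stp_ge hst (by omega)
  rw [hkey]
  have hrev := reverse (e := (z 0, z 1)) hal hmin
  by_cases hsk : s ≤ k
  · right
    refine ⟨k - s, ?_⟩
    rw [hrev (k - s) (by omega), show k - (k - s) = s by omega]
    rw [sq_dart hmin s hsk]
    rw [← hzs]
    change z s = sq E ω (z 0, z 1) s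
    cases s with
    | zero => rfl
    | succ s =>
      change z (s + 1) = ((nx E ω)^[s] (z 0, z 1)).2
      rw [trail_iter hz s (by omega)]
  · left
    have hs' : s = k + 1 := by omega
    rw [trail_iter hz k (by omega), ← hzs, hs']

lemma rch_of_onSeg (hT : Tame E ω T) {e : V × V} {y : V} (h : OnSeg E ω e y) :
    Rch E ω (key E ω T e) y := by
  obtain ⟨z, n, t, s, hz, ht, hs, hzs, he⟩ := h
  rcases he with he | he
  · exact rch_of_onSeg_aux hT hz ht hs hzs he
  · have hz' := isT_rev hz le_rfl (m := n) le_rfl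
    refine rch_of_onSeg_aux hT (z := fun i => z (n - i)) (t := n - (t + 1)) (s := n - s)
      hz' (by omega) (by omega) ?_ ?_
    · rw [show n - (n - s) = s by omega]; exact hzs
    · rw [show n - (n - (t + 1)) = t + 1 by omega, show n - (n - (t + 1) + 1) = t by omega]
      exact he

lemma onSeg_of_rch (hT : Tame E ω T) {e : V × V} (he : Alv E ω e.1 e.2) {y : V}
    (h : Rch E ω (key E ω T e) y) : OnSeg E ω e y := by
  obtain ⟨k, hk, hst, hmin, -, -⟩ := exists_stop hT he
  rw [key_eq (by omega) hst] at h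
  set g := (nx E ω)^[k] e with hg
  have hga : Alv E ω g.swap.1 g.swap.2 := alv_symm (alv_iter he k)
  obtain ⟨K, hK, hstK, hminK, htrK, hinjK⟩ := exists_stop hT hga
  have hek : (nx E ω)^[k] g.swap = e.swap := by
    have := reverse he hmin k le_rfl
    rw [Nat.sub_self] at this
    exact this
  have hat : ∃ t, t ≤ K ∧ (nx E ω)^[t] g.swap = e.swap := by
    by_cases hkK : k ≤ K
    · exact ⟨k, hkK, hek⟩
    · exact ⟨K, le_rfl, by rw [← hek]; exact (iter_stp_ge hstK (by omega)).symm⟩
  obtain ⟨t, htK, htt⟩ := hat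
  have hy : ∃ s, s ≤ K + 1 ∧ sq E ω g.swap s = y := by
    rcases h with h | ⟨i, hi⟩
    · exact ⟨0, by omega, h.symm⟩
    · by_cases hiK : i ≤ K
      · exact ⟨i + 1, by omega, hi.symm⟩
      · refine ⟨K + 1, le_rfl, ?_⟩
        rw [iter_stp_ge hstK (by omega)] at hi
        exact hi.symm
  obtain ⟨s, hs, hsy⟩ := hy
  refine ⟨sq E ω g.swap, K + 1, t, s, htrK, by omega, hs, hsy, Or.inr ?_⟩
  have h1 := sq_dart hminK t htK
  rw [htt] at h1
  have h2 := congrArg Prod.swap h1
  rw [Prod.swap_swap] at h2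
  exact h2.symm

lemma rch_skey_of_onSeg (hT : Tame E ω T) {e : V × V} {y : V} (h : OnSeg E ω e y) :
    Rch E ω (skey E ω T e) y := by
  unfold skey
  split_ifs
  · exact rch_of_onSeg hT h
  · exact rch_of_onSeg hT (onSeg_swap h)

lemma onSeg_of_rch_skey (hT : Tame E ω T) {e : V × V} (he : Alv E ω e.1 e.2) {y : V}
    (h : Rch E ω (skey E ω T e) y) : OnSeg E ω e y := by
  unfold skey at h
  split_ifs at h
  · exact onSeg_of_rch hT he h
  · have h1 := onSeg_of_rch hT (e := e.swap) (alv_symm he) h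
    have h2 := onSeg_swap h1
    rw [Prod.swap_swap] at h2
    exact h2

end Pool.Agent.LAG.Sega

namespace Pool.Agent.LAG

open Sega

theorem segb : SegbStmt := by
  intro V L T E ω hT
  refine ⟨?_, ?_, ?_⟩
  · intro u v w h1 h2 hne h
    exact ptn_of_skey hT h1 h2 hne h
  · intro e y _ h u hu hyu
    exact onSeg_trail hT h hu hyu
  · intro e e' y _ he' hk h
    exact onSeg_of_rch_skey hT he' (hk ▸ rch_skey_of_onSeg hT h)

end Pool.Agent.LAG
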